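import Pool.Agent.Lib.MP_c7af3c_ag.T2C.IfaceA
import Pool.Agent.Lib.MP_c7af3c_ag.T2.H16.Corea

/-!
# MP_c7af3c_ag, project T2C: module COREA (helper16)
-/

set_option autoImplicit false

namespace Pool.Agent.T2C.H16

open MvPolynomial Pool.Agent.Gen Pool.Agent.Sharp Pool.Agent.Edge
open Pool.Agent.T2 (Fk Rac lnf Sizes Sit)
open Pool.Agent.T2.H16 (Cmb cmb_of_hom form_of_eval mem_kk fk_rename)

section res

variable {Ω : Type} [Field Ω] {n r : ℕ} (P : Fin (r + 1) → Fin (n + 1) → Ω)

/-- the restriction to the hull -/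
noncomputable def rho : MvPolynomial (Fin (n + 1)) Ω →ₐ[Ω] MvPolynomial (Fin (r + 1)) Ω :=
  aeval fun f => ∑ i, C (P i f) * X i

theorem rho_X (f : Fin (n + 1)) : rho P (X f) = ∑ i, C (P i f) * X i := by
  unfold rho
  rw [aeval_X]

theorem rho_hom {d : ℕ} {G : MvPolynomial (Fin (n + 1)) Ω} (hG : G.IsHomogeneous d) :
    (rho P G).IsHomogeneous d := by
  have h := hG.aeval (fun f => ∑ i, C (P i f) * (X i : MvPolynomial (Fin (r + 1)) Ω)) (n := 1)
    (fun f => IsHomogeneous.sum _ _ _ fun i _ => isHomogeneous_C_mul_X _ _)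
  rwa [one_mul] at h

theorem rename_rho (t : Fin (r + 1) → Fin (n + 1)) (G : MvPolynomial (Fin (n + 1)) Ω) :
    rename t (rho P G) = aeval (fun f => ∑ i, C (P i f) * X (t i)) G := by
  have h : (rename t).comp (rho P) = aeval (fun f => ∑ i, C (P i f) * X (t i)) := by
    refine algHom_ext fun f => ?_
    rw [AlgHom.comp_apply, rho_X, map_sum, aeval_X]
    exact Finset.sum_congr rfl fun i _ => by rw [map_mul, rename_X, rename_C]
  exact congrArg (fun φ : MvPolynomial (Fin (n + 1)) Ω →ₐ[Ω] MvPolynomial (Fin (n + 1)) Ω => φ G) h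

theorem rho_rename {t : Fin (r + 1) → Fin (n + 1)} (hP : ∀ i j, P i (t j) = if i = j then 1 else 0)
    (G : MvPolynomial (Fin (r + 1)) Ω) : rho P (rename t G) = G := by
  have h : (rho P).comp (rename t) = AlgHom.id Ω _ := by
    refine algHom_ext fun j => ?_
    rw [AlgHom.comp_apply, rename_X, rho_X, AlgHom.id_apply]
    simp [hP]
  exact congrArg (fun φ : MvPolynomial (Fin (r + 1)) Ω →ₐ[Ω] MvPolynomial (Fin (r + 1)) Ω => φ G) h

theorem eval_rho {x : Fin (n + 1) → Ω} {t : Fin (r + 1) → Fin (n + 1)}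
    (hx : ∀ f, x f = ∑ i, P i f * x (t i)) (G : MvPolynomial (Fin (n + 1)) Ω) :
    eval (fun i => x (t i)) (rho P G) = eval x G := by
  have h : (eval fun i => x (t i)).comp (rho P : MvPolynomial (Fin (n + 1)) Ω →+* _) = eval x := by
    refine MvPolynomial.ringHom_ext (fun a => ?_) fun f => ?_
    · change eval _ (rho P (C a)) = _
      unfold rho
      rw [aeval_C, eval_C]
      exact eval_C _
    · change eval _ (rho P (X f)) = _
      rw [rho_X, map_sum, eval_X, hx f]
      exact Finset.sum_congr rfl fun i _ => by rw [map_mul, eval_C, eval_X]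
  exact congrArg (fun φ : MvPolynomial (Fin (n + 1)) Ω →+* Ω => φ G) h

theorem rho_mem (k : Subfield Ω) (hP : ∀ i f, P i f ∈ k) {G : MvPolynomial (Fin (n + 1)) Ω}
    (hG : ∀ I, coeff I G ∈ k) : ∀ I, coeff I (rho P G) ∈ k := by
  rw [← mem_kk]
  have hC : ∀ a ∈ k, (C a : MvPolynomial (Fin (r + 1)) Ω) ∈
      (MvPolynomial.map (σ := Fin (r + 1)) k.subtype).range := fun a ha => by
    exact ⟨C ⟨a, ha⟩, by rw [map_C]; rfl⟩
  have hX : ∀ i, (X i : MvPolynomial (Fin (r + 1)) Ω) ∈
      (MvPolynomial.map (σ := Fin (r + 1)) k.subtype).range := fun i => ⟨X i, by rw [map_X]⟩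
  rw [G.as_sum, map_sum]
  refine Subring.sum_mem _ fun I _ => ?_
  have h1 : (monomial I (coeff I G) : MvPolynomial (Fin (n + 1)) Ω) =
      C (coeff I G) * ∏ f, X f ^ I f := by
    rw [monomial_eq, Finsupp.prod_fintype _ _ fun _ => pow_zero _]
  have h2 : rho P (C (coeff I G)) = C (coeff I G) := by
    unfold rho
    rw [aeval_C]
    rfl
  rw [h1, map_mul, map_prod, h2]
  refine Subring.mul_mem _ (hC _ (hG I)) (Subring.prod_mem _ fun f _ => ?_)
  rw [map_pow, rho_X]
  exact Subring.pow_mem _ (Subring.sum_mem _ fun i _ => Subring.mul_mem _ (hC _ (hP i f)) (hX i)) _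

end res

section tup

variable {Ω : Type} [Field Ω] {n c : ℕ} {d : Fin c → ℕ}

theorem adm_hom {A : TP Ω n c} (hA : Adm d A) (m : Fin c) : (A m).IsHomogeneous (d m - 1) := by
  intro I hI
  have h1 := hA m I hI
  have h3 : I.degree = Finsupp.weight 1 I := by rw [Finsupp.degree_eq_weight_one]; rfl
  rw [← h3]
  omega

theorem hom_adm (h2 : ∀ m, 2 ≤ d m) {A : TP Ω n c} (hA : ∀ m, (A m).IsHomogeneous (d m - 1)) :
    Adm d A := by
  intro m I hI
  have h1 := hA m hI
  have h3 : I.degree = Finsupp.weight 1 I := by rw [Finsupp.degree_eq_weight_one]; rfl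
  have := h2 m
  omega

theorem hom_mul_one (h2 : ∀ m, 2 ≤ d m) {σ : Type} {f g : MvPolynomial σ Ω} {m : Fin c}
    (hf : f.IsHomogeneous (d m - 1)) (hg : g.IsHomogeneous 1) : (f * g).IsHomogeneous (d m) := by
  have h := hf.mul hg
  have e : d m - 1 + 1 = d m := by have := h2 m; omega
  rwa [e] at h

theorem hom_one_mul (h2 : ∀ m, 2 ≤ d m) {σ : Type} {f g : MvPolynomial σ Ω} {m : Fin c}
    (hf : f.IsHomogeneous 1) (hg : g.IsHomogeneous (d m - 1)) : (f * g).IsHomogeneous (d m) := by
  have h := hf.mul hg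
  have e : 1 + (d m - 1) = d m := by have := h2 m; omega
  rwa [e] at h

theorem hom_one_mul' (h2 : ∀ m, 2 ≤ d m) {σ : Type} {f g : MvPolynomial σ Ω} {m : Fin c}
    (hf : f.IsHomogeneous 1) (hg : g.IsHomogeneous (d m - 2)) : (f * g).IsHomogeneous (d m - 1) := by
  have h := hf.mul hg
  have e : 1 + (d m - 2) = d m - 1 := by have := h2 m; omega
  rwa [e] at h

theorem single_fun {α β : Type} [Zero α] [Zero β] (φ : α → β) (h0 : φ 0 = 0) {c : ℕ} (m0 : Fin c)
    (g : α) : (fun m => φ ((Pi.single m0 g : Fin c → α) m)) = (Pi.single m0 (φ g) : Fin c → β) := by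
  funext m
  by_cases h : m = m0
  · subst h
    rw [Pi.single_eq_same, Pi.single_eq_same]
  · rw [Pi.single_eq_of_ne h, Pi.single_eq_of_ne h, h0]

theorem single_hom {σ : Type} {e : Fin c → ℕ} {m0 : Fin c} {g : MvPolynomial σ Ω}
    (hg : g.IsHomogeneous (e m0)) (m : Fin c) :
    ((Pi.single m0 g : Fin c → MvPolynomial σ Ω) m).IsHomogeneous (e m) := by
  by_cases h : m = m0
  · subst h
    rw [Pi.single_eq_same]
    exact hg
  · rw [Pi.single_eq_of_ne h]
    exact isHomogeneous_zero _ _ _

variable (D : DSys Ω n c d) (x : Fin (n + 1) → Ω)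

theorem grad_VT (h0 : ∀ m, eval x (D.F m) = 0) {G : TP Ω n c}
    (hG : ∀ m, (G m).IsHomogeneous (d m)) (m' : Fin c) :
    ∑ p, eval x (pderiv p (D.F m')) * VT D x G p = - eval x (G m') := by
  have h1 : ∀ p, VT D x G p = ∑ m, D.V x m (G m) p := fun p => by
    rw [VT_apply, Finset.sum_apply]
  have h2 : ∑ p, eval x (pderiv p (D.F m')) * VT D x G p =
      ∑ m, ∑ p, eval x (pderiv p (D.F m')) * D.V x m (G m) p := by
    rw [Finset.sum_comm]
    exact Finset.sum_congr rfl fun p _ => by rw [h1, Finset.mul_sum]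
  rw [h2, Finset.sum_congr rfl fun m _ =>
    Pool.Agent.Gen.H12.reln Ω n c d D x h0 m m' (G m) (hG m), Finset.sum_ite_eq']
  rw [if_pos (Finset.mem_univ _)]

end tup

/-- Row COREA. -/
theorem corea : CoreaStatement := by
  classical
  intro _ Ω _ _ k n c d D x j0 s r η t P A0 hn h2d hG
  have h00 := hG.h0
  have hPt := hG.hull.Pt
  have hxP := hG.hull.xP
  have hj0 := hG.hj0
  set y : Fin (r + 1) → Ω := fun i => x (t i) with hy
  have hy0 : y 0 = 1 := by
    show x (t 0) = 1
    rw [hG.hull.t0]; exact hj0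
  have hlfr : ∀ j : Fin r, rename t (X j.succ - C (y j.succ) * X 0 : MvPolynomial (Fin (r + 1)) Ω) =
      lf x j0 (t j.succ) := by
    intro j
    rw [map_sub, map_mul, rename_X, rename_X, rename_C, hG.hull.t0]
    rfl
  have hl1 : ∀ j : Fin r, (X j.succ - C (y j.succ) * X 0 : MvPolynomial (Fin (r + 1)) Ω).IsHomogeneous 1 :=
    fun j => (isHomogeneous_X _ _).sub (isHomogeneous_C_mul_X _ _)
  set V : TP Ω n c →ₗ[Ω] (Fin (n + 1) → Ω) := VT D x with hV
  have hsub : ∀ m, d m - 1 + 1 = d m := fun m => by have := h2d m; omega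
  -- modulo the hull
  have hres : ∀ G : TP Ω n c, (∀ m, (G m).IsHomogeneous (d m)) →
      V G - V (fun m => rename t (rho P (G m))) ∈ Hs x η := by
    intro G hG6
    have hB0 : ∀ m, Cmb (fun f => ∑ i, C (P i f) * X (t i)) (d m - 1)
        (G m - aeval (fun f => ∑ i, C (P i f) * X (t i)) (G m)) := fun m =>
      cmb_of_hom (fun f => IsHomogeneous.sum _ _ _ fun i _ => isHomogeneous_C_mul_X _ _)
        (by rw [hsub]; exact hG6 m)
    choose B hB hB' using hB0
    have e1 : (G - fun m => rename t (rho P (G m))) = ∑ f, mulT (fun m => B m f) (lam t P f) := by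
      funext m
      rw [Pi.sub_apply, rename_rho, hB' m, Finset.sum_apply]
      rfl
    rw [← map_sub, e1, map_sum]
    exact Submodule.sum_mem _ fun f _ => hG.van _ (hom_adm h2d fun m => hB m f) f
  have hgV : ∀ G : TP Ω n c, (∀ m, (G m).IsHomogeneous (d m)) → (∀ m, eval x (G m) = 0) →
      ∀ m, ∑ p, eval x (pderiv p (D.F m)) * V G p = 0 := by
    intro G hG6 hGx m
    rw [hV, grad_VT D x h00 hG6 m, hGx m, neg_zero]
  have hgx : ∀ m, ∑ p, eval x (pderiv p (D.F m)) * x p = 0 := grad_x D x h00
  have hlf : ∀ {A : TP Ω n c} (i : Fin (n + 1)), (∀ m, (A m).IsHomogeneous (d m - 1)) →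
      ∀ m, (mulT A (lf x j0 i) m).IsHomogeneous (d m) := fun i hA m =>
    hom_mul_one h2d (hA m) (hom_lf x j0 i)
  have hgl : ∀ {A : TP Ω n c} (i : Fin (n + 1)), (∀ m, (A m).IsHomogeneous (d m - 1)) →
      ∀ m, ∑ p, eval x (pderiv p (D.F m)) * V (mulT A (lf x j0 i)) p = 0 := by
    intro A i hA
    refine hgV _ (hlf i hA) fun m => ?_
    show eval x (A m * lf x j0 i) = 0
    rw [map_mul, eval_lf x hj0, mul_zero]
  have hA0h : ∀ m, (A0 m).IsHomogeneous (d m - 1) := adm_hom hG.A0k.1
  -- coordinates
  set bv : Unit ⊕ (Fin s ⊕ Fin r) → Fin (n + 1) → Ω :=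
    Sum.elim (fun _ => x) (Sum.elim η fun b : Fin r => V (mulT A0 (lf x j0 (t b.succ)))) with hbv
  obtain ⟨Lm, hLm⟩ := LinearMap.exists_leftInverse_of_injective (Fintype.linearCombination Ω bv)
    (LinearMap.ker_eq_bot.2 (LinearIndependent.fintypeLinearCombination_injective hG.bas))
  have hLc : ∀ e : Unit ⊕ (Fin s ⊕ Fin r) → Ω, Lm (∑ i, e i • bv i) = e := fun e => by
    have h1 := LinearMap.congr_fun hLm e
    rwa [LinearMap.comp_apply, Fintype.linearCombination_apply, LinearMap.id_apply] at h1
  have hLb : ∀ a, Lm (bv a) = Pi.single a 1 := fun a => by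
    have h1 := hLc (Pi.single a 1)
    rw [Finset.sum_eq_single a, Pi.single_eq_same, one_smul] at h1
    · exact h1
    · intro b _ hb
      rw [Pi.single_eq_of_ne hb, zero_smul]
    · intro h; exact absurd (Finset.mem_univ _) h
  let Φ : (Fin (n + 1) → Ω) →ₗ[Ω] (Fin r → Ω) :=
    (LinearMap.funLeft Ω Ω fun i : Fin r => (Sum.inr (Sum.inr i) : Unit ⊕ (Fin s ⊕ Fin r))).comp Lm
  have hΦa : ∀ u i, Φ u i = Lm u (Sum.inr (Sum.inr i)) := fun _ _ => rfl
  have hΦ0 : ∀ u ∈ Hs x η, Φ u = 0 := by
    have h1 : Hs x η ≤ LinearMap.ker Φ := by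
      refine Submodule.span_le.2 ?_
      rintro u (rfl | ⟨j, rfl⟩)
      · refine LinearMap.mem_ker.2 (funext fun i => ?_)
        rw [hΦa]
        have h2 := hLb (Sum.inl ())
        rw [show bv (Sum.inl ()) = u from rfl] at h2
        rw [h2]
        exact Pi.single_eq_of_ne (by simp) _
      · refine LinearMap.mem_ker.2 (funext fun i => ?_)
        rw [hΦa]
        have h2 := hLb (Sum.inr (Sum.inl j))
        rw [show bv (Sum.inr (Sum.inl j)) = η j from rfl] at h2
        rw [h2]
        exact Pi.single_eq_of_ne (by simp) _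
    exact fun u hu => LinearMap.mem_ker.1 (h1 hu)
  have hΦb : ∀ j : Fin r, Φ (V (mulT A0 (lf x j0 (t j.succ)))) = Pi.single j 1 := by
    intro j
    funext i
    rw [hΦa]
    have h2 := hLb (Sum.inr (Sum.inr j))
    rw [show bv (Sum.inr (Sum.inr j)) = V (mulT A0 (lf x j0 (t j.succ))) from rfl] at h2
    rw [h2, Pi.single_apply, Pi.single_apply]
    simp
  have hΦm : ∀ u v, u - v ∈ Hs x η → Φ u = Φ v := fun u v h => by
    have h1 := hΦ0 _ h
    rw [map_sub] at h1
    exact sub_eq_zero.1 h1
  have hker : ∀ a m, ∑ p, eval x (pderiv p (D.F m)) * bv a p = 0 := by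
    intro a m
    rcases a with a | a | a
    · exact hgx m
    · exact hG.gη a m
    · exact hgl _ hA0h m
  have hK0 : ∀ u : Fin (n + 1) → Ω, (∀ m, ∑ p, eval x (pderiv p (D.F m)) * u p = 0) →
      u - ∑ i : Fin r, Φ u i • V (mulT A0 (lf x j0 (t i.succ))) ∈ Hs x η := by
    intro u hu
    have h1 : u ∈ Submodule.span Ω (Set.range bv) := by
      refine mem_span_K D x h00 bv hG.bas hker ?_ (by rw [hj0]; exact one_ne_zero) (j0 := j0) hu
      rw [Fintype.card_sum, Fintype.card_sum, Fintype.card_fin, Fintype.card_fin, Fintype.card_unit, hG.sr]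
      omega
    obtain ⟨e, he⟩ := (Submodule.mem_span_range_iff_exists_fun Ω).1 h1
    have h2 : ∀ i, Φ u i = e (Sum.inr (Sum.inr i)) := fun i => by rw [hΦa, ← he, hLc]
    have h3 : u - ∑ i : Fin r, Φ u i • V (mulT A0 (lf x j0 (t i.succ))) =
        e (Sum.inl ()) • x + ∑ j, e (Sum.inr (Sum.inl j)) • η j := by
      rw [Finset.sum_congr rfl fun i _ => by rw [h2 i]]
      conv_lhs => rw [← he]
      rw [Fintype.sum_sum_type, Fintype.sum_sum_type]
      simp only [Finset.univ_unique, Finset.sum_singleton, hbv, Sum.elim_inl, Sum.elim_inr]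
      rw [← add_assoc, add_sub_cancel_right]
    rw [h3]
    refine Submodule.add_mem _ (Submodule.smul_mem _ _ (Submodule.subset_span (Set.mem_insert _ _)))
      (Submodule.sum_mem _ fun j _ => Submodule.smul_mem _ _
        (Submodule.subset_span (Set.mem_insert_of_mem _ ⟨j, rfl⟩)))
  -- the matrices
  let a : TP Ω r c →ₗ[Ω] Matrix (Fin r) (Fin r) Ω :=
    { toFun := fun A => Matrix.of fun i j =>
        Φ (V (mulT (fun m => rename t (homogeneousComponent (d m - 1) (A m))) (lf x j0 (t j.succ)))) i
      map_add' := fun A B => by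
        have e : ∀ j : Fin r, mulT (fun m => rename t (homogeneousComponent (d m - 1) ((A + B) m)))
            (lf x j0 (t j.succ)) =
            mulT (fun m => rename t (homogeneousComponent (d m - 1) (A m))) (lf x j0 (t j.succ)) +
            mulT (fun m => rename t (homogeneousComponent (d m - 1) (B m))) (lf x j0 (t j.succ)) := by
          intro j
          funext m
          show rename t (homogeneousComponent (d m - 1) (A m + B m)) * _ =
            rename t (homogeneousComponent (d m - 1) (A m)) * _ +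
            rename t (homogeneousComponent (d m - 1) (B m)) * _
          rw [map_add, map_add, add_mul]
        ext i j
        rw [Matrix.of_apply, Matrix.add_apply, Matrix.of_apply, Matrix.of_apply, e, map_add, map_add,
          Pi.add_apply]
      map_smul' := fun z A => by
        have e : ∀ j : Fin r, mulT (fun m => rename t (homogeneousComponent (d m - 1) ((z • A) m)))
            (lf x j0 (t j.succ)) =
            z • mulT (fun m => rename t (homogeneousComponent (d m - 1) (A m))) (lf x j0 (t j.succ)) := by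
          intro j
          funext m
          show rename t (homogeneousComponent (d m - 1) (z • A m)) * _ =
            z • (rename t (homogeneousComponent (d m - 1) (A m)) * _)
          rw [map_smul, map_smul, smul_mul_assoc]
        ext i j
        rw [Matrix.of_apply, e, map_smul, map_smul]
        rfl }
  have ha : ∀ A : TP Ω r c, (∀ m, (A m).IsHomogeneous (d m - 1)) → ∀ i j,
      a A i j = Φ (V (mulT (fun m => rename t (A m)) (lf x j0 (t j.succ)))) i := by
    intro A hA i j
    show Φ (V (mulT (fun m => rename t (homogeneousComponent (d m - 1) (A m))) (lf x j0 (t j.succ)))) i = _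
    have e : (fun m => rename t (homogeneousComponent (d m - 1) (A m))) = fun m => rename t (A m) :=
      funext fun m => by rw [homogeneousComponent_eq_self (hA m)]
    rw [e]
  have hmod : ∀ {u : TP Ω n c}, (∀ m, (u m).IsHomogeneous (d m)) →
      Φ (V u) = Φ (V (fun m => rename t (rho P (u m)))) := fun {u} h => hΦm _ _ (hres _ h)
  have hlfk : ∀ j : Fin r, rename t (rho P (lf x j0 (t j.succ))) = lf x j0 (t j.succ) := fun j => by
    rw [← hlfr j, rho_rename P hPt]
  -- the last clause
  have hlast : ∀ m0, 3 ≤ d m0 → ∀ w : MvPolynomial (Fin (r + 1)) Ω, Fk k 2 w →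
      (∀ C' : MvPolynomial (Fin (r + 1)) Ω, C'.IsHomogeneous (d m0 - 3) →
        a (Pi.single m0 (w * C')) = 0) → AnnH D x η m0 (rename t w) := by
    intro m0 hm0 w hw haw H hH hHx
    have e3 : d m0 - 3 + 1 = d m0 - 2 := by omega
    obtain ⟨B, hB, hB'⟩ := form_of_eval (n := d m0 - 3) hy0
      (by rw [e3]; exact rho_hom P hH) (by rw [eval_rho P hxP]; exact hHx)
    have h6 : ∀ m, ((Pi.single m0 (rename t w * H) : TP Ω n c) m).IsHomogeneous (d m) := by
      refine single_hom ?_
      have h := hw.1.rename_isHomogeneous (f := t) |>.mul hH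
      have e : 2 + (d m0 - 2) = d m0 := by omega
      rwa [e] at h
    have h6x : ∀ m, eval x ((Pi.single m0 (rename t w * H) : TP Ω n c) m) = 0 := by
      intro m
      by_cases h : m = m0
      · subst h
        rw [Pi.single_eq_same, map_mul, hHx, mul_zero]
      · rw [Pi.single_eq_of_ne h, map_zero]
    have h2 := hK0 (V (Pi.single m0 (rename t w * H))) (hgV _ h6 h6x)
    have h3 : Φ (V (Pi.single m0 (rename t w * H))) = 0 := by
      have h4 := hmod h6
      have e4 : (fun m => rename t (rho P ((Pi.single m0 (rename t w * H) : TP Ω n c) m))) =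
          ∑ j, mulT (fun m => rename t ((Pi.single m0 (w * B j) : TP Ω r c) m))
            (lf x j0 (t j.succ)) := by
        funext m
        rw [Finset.sum_apply]
        by_cases h : m = m0
        · subst h
          rw [Pi.single_eq_same, map_mul, rho_rename P hPt, hB', Finset.mul_sum, map_sum]
          refine Finset.sum_congr rfl fun j _ => ?_
          show _ = rename t ((Pi.single m (w * B j) : TP Ω r c) m) * _
          rw [Pi.single_eq_same, ← hlfr, ← map_mul, mul_assoc]
        · rw [Pi.single_eq_of_ne h, map_zero, map_zero]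
          symm
          refine Finset.sum_eq_zero fun j _ => ?_
          show rename t ((Pi.single m0 (w * B j) : TP Ω r c) m) * _ = 0
          rw [Pi.single_eq_of_ne h, map_zero, zero_mul]
      rw [h4, e4, map_sum, map_sum]
      refine Finset.sum_eq_zero fun j _ => ?_
      funext i
      have h5 : ∀ m, ((Pi.single m0 (w * B j) : TP Ω r c) m).IsHomogeneous (d m - 1) := by
        refine single_hom (e := fun m => d m - 1) ?_
        have h := hw.1.mul (hB j)
        have e : 2 + (d m0 - 3) = d m0 - 1 := by omega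
        rwa [e] at h
      have h7 := ha _ h5 i j
      rw [haw (B j) (hB j)] at h7
      exact h7.symm
    rw [h3] at h2
    simpa using h2
  refine ⟨a, ⟨hy0, hG.hull.yk, ?_, ?_, ?_, ?_⟩, ?_, hlast⟩
  · -- one
    refine ⟨fun m => rho P (A0 m), fun m => ⟨rho_hom P (hA0h m),
      rho_mem P k hG.hull.Pk (hG.A0k.2 m)⟩, ?_⟩
    ext i j
    have h1 := hmod (hlf (t j.succ) hA0h)
    have e1 : (fun m => rename t (rho P (mulT A0 (lf x j0 (t j.succ)) m))) =
        mulT (fun m => rename t (rho P (A0 m))) (lf x j0 (t j.succ)) := by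
      funext m
      show rename t (rho P (A0 m * lf x j0 (t j.succ))) = rename t (rho P (A0 m)) * _
      rw [map_mul, map_mul, hlfk]
    rw [hΦb, e1] at h1
    rw [ha _ (fun m => rho_hom P (hA0h m)), ← h1, Matrix.one_apply, Pi.single_apply]
  · -- comm
    intro C' hC' i j m
    have h1 : ∀ i : Fin r, ∀ p, ((X i.succ - C (y i.succ) * X 0) * C' p).IsHomogeneous (d p - 1) :=
      fun i p => hom_one_mul' h2d (hl1 i) (hC' p)
    have h2 : mulT (fun p => rename t ((X i.succ - C (y i.succ) * X 0) * C' p)) (lf x j0 (t j.succ)) =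
        mulT (fun p => rename t ((X j.succ - C (y j.succ) * X 0) * C' p)) (lf x j0 (t i.succ)) := by
      funext p
      show rename t ((X i.succ - C (y i.succ) * X 0) * C' p) * lf x j0 (t j.succ) =
        rename t ((X j.succ - C (y j.succ) * X 0) * C' p) * lf x j0 (t i.succ)
      rw [map_mul, map_mul, hlfr, hlfr]
      ring
    rw [ha _ (h1 i), ha _ (h1 j), h2]
  · -- word
    intro l hl
    have h1 := hG.word (fun A => Matrix.of fun i j => Φ (V (mulT A (lf x j0 (t j.succ)))) i)
      (fun A hA j => hK0 _ (hgl _ (adm_hom hA)))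
      (l.map fun A m => rename t (A m)) (fun A hA => by
        obtain ⟨B, hB, rfl⟩ := List.mem_map.1 hA
        exact ⟨hom_adm h2d fun m => (fk_rename (hl B hB m) t).1,
          fun m => (fk_rename (hl B hB m) t).2⟩)
    rw [List.map_map] at h1
    have h2 : l.map a = l.map ((fun A => Matrix.of fun i j =>
        Φ (V (mulT A (lf x j0 (t j.succ)))) i) ∘ (fun A m => rename t (A m))) := by
      refine List.map_congr_left fun A hA => ?_
      ext i j
      rw [ha A (fun m => (hl A hA m).1)]
      rfl
    rw [h2]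
    exact h1
  · -- eqv
    intro b hb hb0 τ hτ
    set β : MvPolynomial (Fin (n + 1)) Ω := rename t (lnf b) with hβ
    have hlnf : (lnf b).IsHomogeneous 1 := IsHomogeneous.sum _ _ _ fun i _ => isHomogeneous_C_mul_X _ _
    have hβ1 : β.IsHomogeneous 1 := hlnf.rename_isHomogeneous
    have hevβ : eval x β = ∑ i, b i * x (t i) := by
      rw [hβ, eval_rename]
      unfold lnf
      rw [map_sum]
      exact Finset.sum_congr rfl fun i _ => by rw [map_mul, eval_C, eval_X]; rfl
    have hβx : eval x β ≠ 0 := by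
      intro h
      apply hb0
      refine hG.hull.yk b hb ?_
      rw [← hevβ, h]
    let θ : (Fin (n + 1) → Ω) →ₗ[Ω] Ω := ∑ m, τ m • (LinearMap.proj m ∘ₗ Φ)
    have hθ : ∀ u, θ u = ∑ m, τ m * Φ u m := fun u => by
      show (∑ m, τ m • (LinearMap.proj m ∘ₗ Φ)) u = _
      rw [LinearMap.sum_apply]
      rfl
    have hθ0 : ∀ u ∈ Hs x η, θ u = 0 := fun u hu => by
      rw [hθ, hΦ0 u hu]
      simp
    have hQ0 : ∀ Q : TP Ω n c, (∀ m, (Q m).IsHomogeneous (d m - 1)) → (∀ m, eval x (Q m) = 0) →
        θ (V (fun m => β * Q m)) = 0 := by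
      intro Q hQ hQx
      have h6 : ∀ m, (β * Q m).IsHomogeneous (d m) := fun m => hom_one_mul h2d hβ1 (hQ m)
      have hB0 : ∀ m, ∃ B : Fin r → MvPolynomial (Fin (r + 1)) Ω,
          (∀ j, (B j).IsHomogeneous (d m - 2)) ∧
          rho P (Q m) = ∑ j, B j * (X j.succ - C (y j.succ) * X 0) := fun m =>
        form_of_eval (n := d m - 2) hy0
          (by
            have e : d m - 2 + 1 = d m - 1 := by have := h2d m; omega
            rw [e]
            exact rho_hom P (hQ m)) (by rw [eval_rho P hxP]; exact hQx m)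
      choose B hB hB' using hB0
      have h1 := hmod h6
      have e1 : (fun m => rename t (rho P (β * Q m))) =
          ∑ j, mulT (fun m => rename t (lnf b * B m j)) (lf x j0 (t j.succ)) := by
        funext m
        rw [hβ, map_mul, rho_rename P hPt, hB' m, Finset.mul_sum, map_sum, Finset.sum_apply]
        refine Finset.sum_congr rfl fun j _ => ?_
        show _ = rename t (lnf b * B m j) * lf x j0 (t j.succ)
        rw [← hlfr, ← map_mul, mul_assoc]
      rw [e1, map_sum, map_sum] at h1
      rw [hθ, h1]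
      simp only [Finset.sum_apply, Finset.mul_sum]
      rw [Finset.sum_comm]
      refine Finset.sum_eq_zero fun j _ => ?_
      rw [← hτ (fun m => B m j) (fun m => hB m j) j]
      refine Finset.sum_congr rfl fun m _ => ?_
      rw [ha _ (fun p => hom_one_mul' h2d hlnf (hB p j))]
    set e : Fin c → Ω := fun m0 => θ (V (fun m => β * (Pi.single m0 (X j0 ^ (d m0 - 1)) : TP Ω n c) m))
      with he
    have hX5 : ∀ m0 m, ((Pi.single m0 (X j0 ^ (d m0 - 1)) : TP Ω n c) m).IsHomogeneous (d m - 1) :=
      fun m0 => single_hom (e := fun m => d m - 1) (isHomogeneous_X_pow _ _)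
    have hQ : ∀ Q : TP Ω n c, (∀ m, (Q m).IsHomogeneous (d m - 1)) →
        θ (V (fun m => β * Q m)) = ∑ m0, eval x (Q m0) * e m0 := by
      intro Q hQ
      have h1 : ∀ m, ((Q - ∑ m0, eval x (Q m0) •
          (Pi.single m0 (X j0 ^ (d m0 - 1)) : TP Ω n c)) m).IsHomogeneous (d m - 1) := by
        intro m
        rw [Pi.sub_apply, Finset.sum_apply]
        refine (hQ m).sub (IsHomogeneous.sum _ _ _ fun m0 _ => ?_)
        rw [Pi.smul_apply, smul_eq_C_mul]
        exact (hX5 m0 m).C_mul _
      have h2 := hQ0 _ h1 (fun m => by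
        rw [Pi.sub_apply, Finset.sum_apply, map_sub, map_sum, Finset.sum_eq_single m, Pi.smul_apply,
          Pi.single_eq_same, smul_eval, map_pow, eval_X, hj0, one_pow, mul_one, sub_self]
        · intro m0 _ hm0
          rw [Pi.smul_apply, Pi.single_eq_of_ne hm0.symm, smul_zero, map_zero]
        · intro h
          exact absurd (Finset.mem_univ _) h)
      have h3 : (fun m => β * (Q - ∑ m0, eval x (Q m0) •
          (Pi.single m0 (X j0 ^ (d m0 - 1)) : TP Ω n c)) m) = (fun m => β * Q m) -
          ∑ m0, eval x (Q m0) • (fun m => β * (Pi.single m0 (X j0 ^ (d m0 - 1)) : TP Ω n c) m) := by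
        funext m
        rw [Pi.sub_apply, Pi.sub_apply, Finset.sum_apply, Finset.sum_apply, mul_sub, Finset.mul_sum]
        congr 1
        refine Finset.sum_congr rfl fun m0 _ => ?_
        rw [Pi.smul_apply, Pi.smul_apply, mul_smul_comm]
      rw [h3, map_sub, map_sub, map_sum, map_sum] at h2
      rw [sub_eq_zero.1 h2]
      refine Finset.sum_congr rfl fun m0 _ => ?_
      rw [map_smul, map_smul, smul_eq_mul]
    -- all coordinates of the corrected functional are zero
    have hp : ∀ p, eval x β * θ (Pi.single p 1) + ∑ m0, e m0 * eval x (pderiv p (D.F m0)) = 0 := by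
      intro p
      have hQp : ∀ m, (pderiv p (D.F m)).IsHomogeneous (d m - 1) := fun m => (D.hom m).pderiv
      have h1 := hQ (fun m => pderiv p (D.F m)) hQp
      have h2 : V (fun m => β * pderiv p (D.F m)) =
          ∑ i, b i • (WT D x p (t i) - x (t i) • Pi.single p 1) := by
        have h3 : ∀ q, V (fun m => X q * pderiv p (D.F m)) = WT D x p q - x q • Pi.single p 1 := by
          intro q
          unfold WT
          rw [add_sub_cancel_left]
        have h4 : (fun m => β * pderiv p (D.F m)) =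
            ∑ i, b i • (fun m => (X (t i) * pderiv p (D.F m) : MvPolynomial (Fin (n + 1)) Ω)) := by
          funext m
          rw [hβ, Finset.sum_apply]
          unfold lnf
          rw [map_sum, Finset.sum_mul]
          exact Finset.sum_congr rfl fun i _ => by
            rw [map_mul, rename_C, rename_X, Pi.smul_apply, smul_eq_C_mul, mul_assoc]
        rw [h4, map_sum]
        exact Finset.sum_congr rfl fun i _ => by rw [map_smul, h3]
      have h5 : θ (V (fun m => β * pderiv p (D.F m))) = - (eval x β * θ (Pi.single p 1)) := by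
        rw [h2, map_sum, hevβ, Finset.sum_mul, ← Finset.sum_neg_distrib]
        refine Finset.sum_congr rfl fun i _ => ?_
        rw [map_smul, map_sub, map_smul, hθ0 _ (hG.w p (t i)), smul_eq_mul, smul_eq_mul]
        ring
      rw [h5] at h1
      have h6 : ∑ m0, e m0 * eval x (pderiv p (D.F m0)) = ∑ m0, eval x (pderiv p (D.F m0)) * e m0 :=
        Finset.sum_congr rfl fun m0 _ => mul_comm _ _
      rw [h6, ← h1, add_neg_cancel]
    have hall : ∀ u : Fin (n + 1) → Ω, eval x β * θ u +
        ∑ m0, e m0 * ∑ p, eval x (pderiv p (D.F m0)) * u p = 0 := by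
      intro u
      have h1 : u = ∑ p, u p • (Pi.single p 1 : Fin (n + 1) → Ω) := by
        funext q
        simp [Finset.sum_apply, Pi.single_apply]
      have h2 : θ u = ∑ p, u p * θ (Pi.single p 1) := by
        conv_lhs => rw [h1]
        rw [map_sum]
        exact Finset.sum_congr rfl fun p _ => by rw [map_smul, smul_eq_mul]
      have h3 : ∑ m0, e m0 * ∑ p, eval x (pderiv p (D.F m0)) * u p =
          ∑ p, u p * ∑ m0, e m0 * eval x (pderiv p (D.F m0)) := by
        simp only [Finset.mul_sum]
        rw [Finset.sum_comm]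
        exact Finset.sum_congr rfl fun p _ => Finset.sum_congr rfl fun m0 _ => by ring
      rw [h2, h3, Finset.mul_sum, ← Finset.sum_add_distrib]
      refine Finset.sum_eq_zero fun p _ => ?_
      linear_combination (u p) * hp p
    funext i
    have h1 := hall (V (mulT A0 (lf x j0 (t i.succ))))
    have h0 : ∑ m0, e m0 * ∑ p, eval x (pderiv p (D.F m0)) *
        V (mulT A0 (lf x j0 (t i.succ))) p = 0 := by
      refine Finset.sum_eq_zero fun m0 _ => ?_
      rw [hgl _ hA0h m0, mul_zero]
    rw [h0, add_zero] at h1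
    have h2 := (mul_eq_zero.1 h1).resolve_left hβx
    rw [hθ, hΦb, Finset.sum_eq_single i, Pi.single_eq_same, mul_one] at h2
    · exact h2
    · intro m _ hm
      rw [Pi.single_eq_of_ne hm, mul_zero]
    · intro h; exact absurd (Finset.mem_univ _) h
  · -- ann
    intro m0 hm0 hann w hw haw
    have h1 := hann (rename t w) (fk_rename hw t) (hlast m0 hm0 w hw haw)
    rw [eval_rename] at h1
    exact h1

end Pool.Agent.T2C.H16
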